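import Pool.Agent.Q222.ISat_SYM
import Pool.Agent.Q222.ISat_TOW
import Pool.Agent.Q222.ISat_TFR
import Pool.Agent.Q222.ISat_TSA
import Pool.Agent.Q222.ISat_GT
import Pool.Agent.Q222.ISat_CLB
import Pool.Agent.Q222.ISat_CLT
import Pool.Agent.Q222.ISat_CLF
import Pool.Agent.Q222.ISat_K4
import Pool.Agent.Q222.ISat_G4
import Pool.Agent.Q222.ISat_DEC
import Pool.Agent.Q222.ISat_INT
import Pool.Agent.Q222.ISat_QNE
import Pool.Agent.Q222.ISat_HM
import Pool.Agent.Q222.ISat_T2A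
import Pool.Agent.Q222.ISat_P0
import Pool.Agent.Q166.ISat_MX
import Pool.Agent.Q166.ISat_STP
import Pool.Agent.Q166.ISat_FR5
import Pool.Agent.Q166.ISat_E5
import Pool.Agent.Q166.ISat_FIN
import Pool.Agent.Q185.ISat_E4

set_option autoImplicit false

/-! # Project ISat: the assembly of the lemmas -/

namespace Q109.ISat

theorem all : S_FIN := by
  have hsym := Q222.ISatSYM.sym
  have hclb := Q222.ISatCLB.clb
  have hclt := Q222.ISatCLT.clt
  have hclf : S_CLF := Q222.ISatCLF.clf hclt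
  have hgt : S_GT := Q222.ISatGT.gt hsym Q222.ISatTOW.tow Q222.ISatTFR.tfr Q222.ISatTSA.tsa
  have hg4 : S_G4 := Q222.ISatG4.g4 hclb hclf Q222.ISatK4.k4
  have hqne : S_QNE := Q222.ISatQNE.qne hclt
  have ht2a : S_T2A := Q222.ISatT2A.t2a hclb hclf
  have hp0 : S_P0 := Q222.ISatP0.p0 hclb hclf Q222.ISatDEC.dec Q222.ISatINT.int hqne Q222.ISatHM.hm ht2a
  have hstp : S_STP := Pool.Agent.Q166.ISat.stp Pool.Agent.Q166.ISat.mx Pool.Agent.Q166.ISat.mn
  have he5 : S_E5 := Pool.Agent.Q166.ISat.e5 hsym Pool.Agent.Q166.ISat.mx Pool.Agent.Q166.ISat.mn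
    hstp Pool.Agent.Q166.ISat.fr5
  exact Pool.Agent.Q166.ISat.fin hsym hgt hg4 hp0 Q185.ISatE4.e4 he5

end Q109.ISat
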