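import Mathlib

set_option autoImplicit false

/-! # Strongly induced-saturated countable uniform hypergraphs: definitions
(project ISat, helper109, MP_9095a7_co)

A `k`-uniform hypergraph on `V` is given by a set `G : Set (Finset V)` of which only the members with
`k` elements matter (`f ∈ G`, `f.card = k`: `f` is an edge, otherwise `f` is a nonedge). -/

namespace Q109.ISat

open Set

/-- an induced copy of `H` in `G` -/
def IndCopy (k : ℕ) {W V : Type} (H : Set (Finset W)) (G : Set (Finset V)) : Prop :=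
  ∃ φ : W ↪ V, ∀ f : Finset W, f.card = k → (f ∈ H ↔ f.map φ ∈ G)

/-- `G` is strongly `H`-induced-saturated -/
def StrongSat (k : ℕ) {W V : Type} (H : Set (Finset W)) (G : Set (Finset V)) : Prop :=
  ¬ IndCopy k H G ∧ ∀ P : Set (Finset V), P.Nonempty → (∀ e ∈ P, e.card = k) →
    (∀ v, {e | e ∈ P ∧ v ∈ e}.Finite) → IndCopy k H (symmDiff G P)

/-- the `k` old vertices and the `m` classes of new vertices -/
abbrev Nw (k m : ℕ) : Type := Fin k ⊕ (Fin m × ℕ)

/-- the old `k`-set -/
def old (k m : ℕ) : Finset (Nw k m) := Finset.univ.map Function.Embedding.inl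

/-- all `k`-sets which meet `X` and `Y` have the status `δ` -/
def Cross (k : ℕ) {W : Type} [DecidableEq W] (H : Set (Finset W)) (δ : Prop) (X Y : Finset W) :
    Prop :=
  ∀ f : Finset W, f.card = k → (f ∩ X).Nonempty → (f ∩ Y).Nonempty → (f ∈ H ↔ δ)

/-- `δ`-decomposition: `X`, `Y` disjoint, nonempty, at most `k` further vertices -/
def Decomp (k : ℕ) {W : Type} [Fintype W] [DecidableEq W] (H : Set (Finset W)) (δ : Prop)
    (X Y : Finset W) : Prop :=
  Disjoint X Y ∧ X.Nonempty ∧ Y.Nonempty ∧ ((X ∪ Y)ᶜ).card ≤ k ∧ Cross k H δ X Y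

/-- The structure `I` on the old `k`-set (with the status `s`) and the new vertices; `δ` is the
status of the `k`-sets with a new vertex and an old vertex outside of the old `k`-set. -/
structure Internal (k m : ℕ) {W : Type} [DecidableEq W] (H : Set (Finset W)) (s δ : Prop)
    (I : Set (Finset (Nw k m))) : Prop where
  /-- (a) the status of the old set is `s` -/
  base : old k m ∈ I ↔ s
  /-- (b) there is no copy of `H` -/
  free : ¬ IndCopy k H I
  /-- (c) the old set and one vertex of each class form a copy of `H` after the change of the status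
  of the old set -/
  flip : ∀ w : Fin m → ℕ, ∃ ψ : W ↪ Nw k m, (∀ x i a, ψ x = Sum.inr (i, a) → a = w i) ∧
    ∀ f : Finset W, f.card = k → (f ∈ H ↔ f.map ψ ∈ symmDiff I {old k m})
  /-- (d) no copy of `H` with further old vertices (`X`), new vertices (`Y`) and vertices of the
  old `k`-set (all others) -/
  cross : ∀ X Y : Finset W, Disjoint X Y → X.Nonempty → Y.Nonempty → Cross k H δ X Y →
    ∀ ζ : W → Nw k m, Set.InjOn ζ {x | x ∉ X} → (∀ y ∈ Y, (ζ y).isRight) →
      (∀ z, z ∉ X → z ∉ Y → (ζ z).isLeft) →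
      ¬ ∀ f : Finset W, f.card = k → Disjoint f X → (f ∈ H ↔ f.image ζ ∈ I)

/-- there is an internal structure for the status `s` -/
def Good (k m : ℕ) {W : Type} [DecidableEq W] (H : Set (Finset W)) (s : Prop) : Prop :=
  ∃ (δ : Prop) (I : Set (Finset (Nw k m))), Internal k m H s δ I

/-- `u` and `v` are `δ`-twins -/
def Twins (k : ℕ) {W : Type} [DecidableEq W] (H : Set (Finset W)) (δ : Prop) (u v : W) : Prop :=
  u ≠ v ∧ (∀ f : Finset W, f.card = k → u ∈ f → v ∈ f → (f ∈ H ↔ δ)) ∧
  ∀ g : Finset W, g.card + 1 = k → u ∉ g → v ∉ g → (insert u g ∈ H ↔ insert v g ∈ H)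

/-- the vertex of `H` of which a vertex is a clone -/
def proj {k m : ℕ} {W : Type} (τ : Fin k ⊕ Fin m ≃ W) : Nw k m → W
  | Sum.inl i => τ (Sum.inl i)
  | Sum.inr (i, _) => τ (Sum.inr i)

/-- the `k`-set of the vertices which are not cloned -/
def first {k m : ℕ} {W : Type} (τ : Fin k ⊕ Fin m ≃ W) : Finset W :=
  Finset.univ.map (Function.Embedding.inl.trans τ.toEmbedding)

/-- `H`, with the status of `first τ` changed, and with clones of the vertices outside of
`first τ`; the sets with two clones of the same vertex have the status `δ` -/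
def clone {k m : ℕ} {W : Type} [DecidableEq W] (τ : Fin k ⊕ Fin m ≃ W) (H : Set (Finset W))
    (δ : Prop) : Set (Finset (Nw k m)) :=
  {g | (¬ Set.InjOn (proj τ) (g : Set (Nw k m)) ∧ δ) ∨
    (Set.InjOn (proj τ) (g : Set (Nw k m)) ∧ g.image (proj τ) ∈ symmDiff H {first τ})}

/-- the vertices of the tower: level, class, number -/
abbrev TV (m : ℕ) : Type := ℕ × Fin m × ℕ

/-- the map of the old set and the new vertices of stage `n + 1` into the tower -/
def lift {k m : ℕ} (t : Fin k ↪ TV m) (n : ℕ) : Nw k m → TV m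
  | Sum.inl i => t i
  | Sum.inr (i, a) => (n + 1, i, a)

/-- the tower: at stage `n + 1` the `k`-set `task n` (of levels at most `n`) is treated -/
structure Tower (k m : ℕ) (δ₀ δ₁ : Prop) (I₀ I₁ : Set (Finset (Nw k m)))
    (G : Set (Finset (TV m))) (task : ℕ → Fin k ↪ TV m) : Prop where
  low : ∀ n i, (task n i).1 ≤ n
  all : ∀ e : Finset (TV m), e.card = k → ∃ n, Finset.univ.map (task n) = e
  zero : ∀ f : Finset (TV m), f.card = k → (∀ v ∈ f, v.1 = 0) → f ∉ G
  inner : ∀ (n : ℕ) (g : Finset (Nw k m)), g.card = k → (∃ x ∈ g, x.isRight) →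
    (g.image (lift (task n) n) ∈ G ↔
      ((Finset.univ.map (task n) ∈ G ∧ g ∈ I₁) ∨ (Finset.univ.map (task n) ∉ G ∧ g ∈ I₀)))
  outer : ∀ (n : ℕ) (f : Finset (TV m)), f.card = k → (∃ v ∈ f, v.1 = n + 1) →
    (∀ v ∈ f, v.1 ≤ n + 1) → (∃ v ∈ f, v.1 ≤ n ∧ ∀ i, task n i ≠ v) →
    (f ∈ G ↔ ((Finset.univ.map (task n) ∈ G ∧ δ₁) ∨ (Finset.univ.map (task n) ∉ G ∧ δ₀)))

/-- the hypergraph with four vertices and two edges -/
def H4 : Set (Finset (Fin 4)) := {{0, 2, 3}, {1, 2, 3}}

/-- the exceptional hypergraph with five vertices `a = 0`, `b = 1`, `v = 2`, `c = 3`, `d = 4` and the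
edges `acd`, `bcd`, `vcd`, `bcv` -/
def H5 : Set (Finset (Fin 5)) := {{0, 3, 4}, {1, 3, 4}, {2, 3, 4}, {1, 2, 3}}

/-- a triple system on the integers in `[p, q]` given by equivalence relations: for `x < y, z` let
`y ~_x z` mean `{x, y, z} ∈ E` (or `y = z`); `eq`: transitivity; `r`: the condition (R) -/
structure OK (p q : ℤ) (E : Set (Finset ℤ)) : Prop where
  eq : ∀ x y z w : ℤ, p ≤ x → x < y → x < z → x < w → y ≤ q → z ≤ q → w ≤ q → y ≠ z → z ≠ w →
    y ≠ w → ({x, y, z} : Finset ℤ) ∈ E → ({x, z, w} : Finset ℤ) ∈ E → ({x, y, w} : Finset ℤ) ∈ E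
  r : ∀ a c b d : ℤ, p ≤ a → a < c → c < b → c < d → b ≤ q → d ≤ q → b ≠ d →
    ({a, c, d} : Finset ℤ) ∈ E → ({c, b, d} : Finset ℤ) ∈ E → ({a, c, b} : Finset ℤ) ∈ E

end Q109.ISat
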