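import Pool.Agent.Q109.ISat.Defs

set_option autoImplicit false

/-! # Project ISat (helper109, MP_9095a7_co): statements with complete proofs

For every `k ≥ 3` and every finite `k`-uniform hypergraph `H` with an edge and a nonedge there is a
countably infinite strongly `H`-induced-saturated `k`-uniform hypergraph.

In all statements a `k`-set is a finset with `k` elements, and status of `f` is the truth value of
`f ∈ H`. -/

namespace Q109.ISat

open Set

/-! ## Generalities -/

/-- **SYM**. Complements and isomorphisms. (1) `Internal` for the complement: complement everything;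
`f ∈ Hᶜ ↔ ¬ f ∈ H`, `f ∈ (symmDiff I {e})` complemented is `symmDiff Iᶜ {e}`, `Cross k Hᶜ (¬δ)` is
`Cross k H δ`, `IndCopy k Hᶜ Iᶜ ↔ IndCopy k H I`. (2) the same for `StrongSat`
(`symmDiff Gᶜ P = (symmDiff G P)ᶜ`). (3) transport along a bijection of the vertices of `H` (only the
`k`-sets matter), (4) along a bijection of the vertices of `G`. -/
def S_SYM : Prop :=
  (∀ (k m : ℕ) (W : Type) [DecidableEq W] (H : Set (Finset W)) (s : Prop),
    Good k m H s → Good k m Hᶜ (¬ s)) ∧
  (∀ (k : ℕ) (W V : Type) (H : Set (Finset W)) (G : Set (Finset V)),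
    StrongSat k H G → StrongSat k Hᶜ Gᶜ) ∧
  (∀ (k : ℕ) (W W' V : Type) (H : Set (Finset W)) (H' : Set (Finset W')) (G : Set (Finset V))
    (e : W ≃ W'), (∀ f : Finset W, f.card = k → (f ∈ H ↔ f.map e.toEmbedding ∈ H')) →
      StrongSat k H' G → StrongSat k H G) ∧
  (∀ (k : ℕ) (W V V' : Type) (H : Set (Finset W)) (G : Set (Finset V)) (_ : V ≃ V'),
      StrongSat k H G → ∃ G' : Set (Finset V'), StrongSat k H G')

/-! ## The tower -/

/-- **TOW** (existence of the tower; nothing about `H` is used). Let `V = TV m = ℕ × Fin m × ℕ`,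
infinite and countable, and its vertices of level `0` are infinitely many (`1 ≤ m`).
Tasks: there is a sequence `g : ℕ → Finset V` taking every value infinitely often (`Finset V` is
countable). If `g n` has `k` elements, all of level at most `n`, let `task n` be an embedding with the
image `g n`; otherwise let `task n` be any embedding into the vertices of level `0`. Then `low` holds,
and `all`: for a `k`-set `e` there is an `n` larger than all its levels with `g n = e`.
`G`: define predicates `St n : Finset V → Prop` by recursion on `n`. `St 0 f = False`. `St (n+1) f`: if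
no vertex of `f` has level `n + 1`: `St n f`; otherwise let `s = St n (univ.map (task n))` (all levels at
most `n`); if every vertex of `f` has the level `n + 1` or is a `task n i`, then `f` is the image of a
unique `g : Finset (Nw k m)` under the injective map `lift (task n) n`, and `St (n+1) f` is
`(s ∧ g ∈ I₁) ∨ (¬ s ∧ g ∈ I₀)`; otherwise `(s ∧ δ₁) ∨ (¬ s ∧ δ₀)`. Let `f ∈ G` mean `St n f` for
`n` = the largest level of a vertex of `f`; as `St (n+1) f = St n f` if `f` has no vertex of level
`n + 1`, `f ∈ G ↔ St n f` for every `n` which is at least all levels. -/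
def S_TOW : Prop := ∀ (k m : ℕ), 1 ≤ k → 1 ≤ m → ∀ (δ₀ δ₁ : Prop) (I₀ I₁ : Set (Finset (Nw k m))),
  ∃ (G : Set (Finset (TV m))) (task : ℕ → Fin k ↪ TV m), Tower k m δ₀ δ₁ I₀ I₁ G task

/-- **TFR** (the tower is `H`-free). Let `φ : W → V` be an induced copy of `H`. `W` is not empty (`H` has
an edge, `1 ≤ k`). Let `N` be the largest level of the `φ x`. `N = 0`: the edge of `H` contradicts
`zero`. `N = n + 1`: let `Y = {x | φ x has level n + 1} ≠ ∅`, `X = {x | φ x` has level at most `n` and is
no `task n i}`, `s` = (`univ.map (task n) ∈ G`), `I = I₁`, `δ = δ₁` if `s` and `I = I₀`, `δ = δ₀`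
otherwise. For `x ∉ X` let `ζ x : Nw k m` be the element with `lift (task n) n (ζ x) = φ x`. For a `k`-set
`f` disjoint from `X`: `f ∈ H ↔ f.map φ ∈ G ↔ f.image ζ ∈ I`: if `f` meets `Y` by `inner`; otherwise
`f.image ζ` is a `k`-set inside `old k m`, so equal to it, `f.map φ = univ.map (task n)`, and `base` says
`old k m ∈ I ↔ s`. If `X = ∅` then `ζ` is injective and an induced copy of `H` in `I`, contradicting
`free`. If `X ≠ ∅`, all `k`-sets which meet `X` and `Y` have the status `δ` by `outer`, so `cross` gives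
a contradiction. -/
def S_TFR : Prop := ∀ (k m : ℕ), 1 ≤ k → 1 ≤ m → ∀ (W : Type) [Fintype W] [DecidableEq W]
  (H : Set (Finset W)), (∃ f ∈ H, f.card = k) →
  ∀ (δ₀ δ₁ : Prop) (I₀ I₁ : Set (Finset (Nw k m))), Internal k m H False δ₀ I₀ →
    Internal k m H True δ₁ I₁ →
  ∀ (G : Set (Finset (TV m))) (task : ℕ → Fin k ↪ TV m), Tower k m δ₀ δ₁ I₀ I₁ G task →
    ¬ IndCopy k H G

/-- **TSA** (every locally finite perturbation of the tower contains `H`). Let `T ∈ P`,
`univ.map (task n) = T` (`all`). Claim: there is `w : Fin m → ℕ` such that no member of `P` other than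
`T` is contained in `T ∪ {(n+1, i, w i) | i}`. Choose `w 0, w 1, ...` one after the other: if
`w 0, ..., w (i-1)` are chosen, the members of `P` which meet the finite set
`T ∪ {(n+1, j, w j) | j < i}` are finitely many; choose `w i` such that `(n+1, i, w i)` is in none of
them. A member `f ≠ T` of `P` inside the set would contain (as `|f| = k = |T|`) some `(n+1, i, w i)`; take
the largest `i`; as `k ≥ 2` it contains another element of `T ∪ {(n+1, j, w j) | j < i}`, a
contradiction. Let `ψ` be given by `flip` for `w` (of `Internal` for `s = (T ∈ G)`, with `I = I₁` or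
`I₀`), `φ = lift (task n) n ∘ ψ`, injective. Let `f` be a `k`-set of `W`. If `f.map ψ = old k m` then
`f.map φ = T ∈ P` and `f ∈ H ↔ old ∈ symmDiff I {old} ↔ old ∉ I ↔ ¬ s ↔ T ∉ G ↔ T ∈ symmDiff G P`.
Otherwise `f.map ψ` has an element `inr`, `f ∈ H ↔ f.map ψ ∈ I ↔ f.map φ ∈ G` (`inner`), and
`f.map φ ∉ P`. -/
def S_TSA : Prop := ∀ (k m : ℕ), 2 ≤ k → 1 ≤ m → ∀ (W : Type) [Fintype W] [DecidableEq W]
  (H : Set (Finset W)) (δ₀ δ₁ : Prop) (I₀ I₁ : Set (Finset (Nw k m))),
  Internal k m H False δ₀ I₀ → Internal k m H True δ₁ I₁ →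
  ∀ (G : Set (Finset (TV m))) (task : ℕ → Fin k ↪ TV m), Tower k m δ₀ δ₁ I₀ I₁ G task →
    ∀ P : Set (Finset (TV m)), P.Nonempty → (∀ e ∈ P, e.card = k) →
      (∀ v, {e | e ∈ P ∧ v ∈ e}.Finite) → IndCopy k H (symmDiff G P)

/-- **GT** (the general theorem). By TOW, TFR, TSA and SYM (4) (`TV m ≃ ℕ`). -/
def S_GT : Prop := ∀ (k m : ℕ), 2 ≤ k → 1 ≤ m → ∀ (W : Type) [Fintype W] [DecidableEq W]
  (H : Set (Finset W)), (∃ f ∈ H, f.card = k) → Good k m H False → Good k m H True →
  ∃ G : Set (Finset ℕ), StrongSat k H G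

/-! ## Clones -/

/-- **CLB**. Properties (a) and (c) of `Internal` for the clone structure. (a) `proj τ` is injective on
`old k m`, with the image `first τ`, and `first τ ∈ symmDiff H {first τ} ↔ first τ ∉ H`. (c) Given `w` let
`ψ (τ (inl i)) = inl i`, `ψ (τ (inr i)) = inr (i, w i)`; then `proj τ (ψ x) = x`, so `proj τ` is
injective on `f.map ψ` with the image `f`, and `f.map ψ = old k m ↔ f = first τ`. -/
def S_CLB : Prop := ∀ (k m : ℕ) (W : Type) [DecidableEq W] (τ : Fin k ⊕ Fin m ≃ W)
  (H : Set (Finset W)) (δ : Prop), 1 ≤ k →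
  (old k m ∈ clone τ H δ ↔ first τ ∉ H) ∧
  ∀ w : Fin m → ℕ, ∃ ψ : W ↪ Nw k m, (∀ x i a, ψ x = Sum.inr (i, a) → a = w i) ∧
    ∀ f : Finset W, f.card = k → (f ∈ H ↔ f.map ψ ∈ symmDiff (clone τ H δ) {old k m})

/-- **CLT**. Let `φ` be an induced copy of `H` in the clone structure, `θ = proj τ ∘ φ : W → W`.
(1) If `x ≠ y` and `θ x = θ y` then `x`, `y` are `δ`-twins: a `k`-set containing both is mapped by `φ` to a
set with two clones of the same vertex, so its status is `δ`. For `|g| = k - 1`, `x, y ∉ g`: if `θ` is not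
injective on `g`, or `θ x ∈ θ(g)`, both `insert x g` and `insert y g` have the status `δ`; otherwise `θ`
is injective on both, and both have the image `insert (θ x) θ(g)`, so the same status. (2) If `θ` is
injective on a `k`-set `f` then `f ∈ H ↔ f.image θ ∈ symmDiff H {first τ}`. (3) `θ` is not injective:
otherwise it is a bijection of `W`, and `f ↦ f.image θ` a bijection of the `k`-sets which maps the
`k`-sets in `H` onto those in `symmDiff H {first τ}`; their numbers differ by one. (4) If `θ x = θ y`,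
`x ≠ y`, then `θ x ∉ first τ` (`φ x ≠ φ y` are clones of the same vertex). -/
def S_CLT : Prop := ∀ (k m : ℕ) (W : Type) [Fintype W] [DecidableEq W] (τ : Fin k ⊕ Fin m ≃ W)
  (H : Set (Finset W)) (δ : Prop), 1 ≤ k → IndCopy k H (clone τ H δ) →
  ∃ θ : W → W, (∀ x y, x ≠ y → θ x = θ y → Twins k H δ x y ∧ θ x ∉ first τ) ∧
    (∀ f : Finset W, f.card = k → Set.InjOn θ (f : Set W) →
      (f ∈ H ↔ f.image θ ∈ symmDiff H {first τ})) ∧
    ¬ Function.Injective θ

/-- **CLF** (clones are `H`-free if the vertices of `first τ` have no `δ`-twins).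
Notation: `x ≈ y` if `x = y` or `x`, `y` are `δ`-twins. This is an equivalence relation (transitivity
`x ~ y ~ z`: a `k`-set containing `x, z`: if it contains `y` it contains the twins `x, y`; otherwise
replace `x` by `y` (same links), the new set contains the twins `y, z`. Links: `|g| = k-1`, `x, z ∉ g`:
if `y ∉ g` all three sets `g ∪ x`, `g ∪ y`, `g ∪ z` have the same status; if `y ∈ g` the sets `g ∪ x`, `g ∪ z`
have the status `δ`). Let `ρ : W → W` choose a representative in each class, `T = ρ(W)`, `F = symmDiff H {first τ}`.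
(i) Let `g` be a `k`-set. If `ρ` is not injective on `g` then `g ∈ H ↔ δ` (it contains twins); otherwise
`g ∈ H ↔ ρ(g) ∈ H` (replace the elements one by one by twins which are not in the set).
(ii) If `u ≠ u'` are in `T`, they are not `δ`-twins in `T`, i.e. it is impossible that all `k`-sets
`g ⊆ T` containing both have the status `δ` and that `g ∪ u ∈ H ↔ g ∪ u' ∈ H` for all `(k-1)`-sets
`g ⊆ T` without `u`, `u'`: by (i) they would be `δ`-twins in `H` (apply `ρ`), but they are in different
classes.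
Now suppose that there is a copy and take `θ` from CLT. Different elements of `T` are not twins, so `θ` is
injective on `T`, and `g ∈ H ↔ θ(g) ∈ F` for `k`-sets `g ⊆ T`. Every class which meets `first τ` is a
single element, so `first τ ⊆ T`.
Case A: `ρ` is injective on `R = θ(T)`. Then `σ = ρ ∘ θ` is injective on `T`, hence a permutation of `T`.
For `x ∈ first τ` the `y ∈ T` with `σ y = x` has `θ y = x` (the class of `x` is a single element). Let
`g₀ = σ⁻¹(first τ)`, a `k`-set in `T` with `θ(g₀) = first τ`. For `k`-sets `g ⊆ T`, `g ≠ g₀`: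
`θ(g) ≠ first τ`, so `g ∈ H ↔ θ(g) ∈ F ↔ θ(g) ∈ H ↔ σ(g) ∈ H` (by (i)); and `g₀ ∈ H ↔ first τ ∈ F ↔
first τ ∉ H ↔ σ(g₀) ∉ H`. But `g ↦ σ(g)` is a bijection of the `k`-sets in `T`, so the number of `g`
with `g ∈ H` is equal to the number of `g` with `σ(g) ∈ H`: contradiction.
Case B: there are `u ≠ u'` in `T` such that `x = θ u ≠ y = θ u'` are `δ`-twins; so `x, y ∉ first τ`. Then
`u`, `u'` are `δ`-twins in `T`, contradicting (ii): a `k`-set `g ⊆ T` containing them has `θ(g) ≠ first τ`
(as `x ∈ θ(g)`) and `g ∈ H ↔ θ(g) ∈ H ↔ δ`; and `g ∪ u ∈ H ↔ θ(g) ∪ x ∈ H ↔ θ(g) ∪ y ∈ H ↔ g ∪ u' ∈ H`. -/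
def S_CLF : Prop := ∀ (k m : ℕ) (W : Type) [Fintype W] [DecidableEq W] (τ : Fin k ⊕ Fin m ≃ W)
  (H : Set (Finset W)) (δ : Prop), 1 ≤ k → (∀ v ∈ first τ, ∀ u, ¬ Twins k H δ v u) →
  ¬ IndCopy k H (clone τ H δ)

/-! ## `k ≥ 4` -/

/-- **K4**. (1) There is `δ` without `δ`-decompositions: otherwise take a decomposition `X, Y` for `True`
and one `X', Y'` for `False`, `x ∈ X`, `y ∈ Y`, `x' ∈ X'`, `y' ∈ Y'`, and a `k`-set containing these at
most `4 ≤ k` elements (there is one since `W` has a `k`-set): it would be in `H` and not in `H`.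
(2) The same for twins: take a `k`-set containing the two `True`-twins and the two `False`-twins. -/
def S_K4 : Prop := ∀ (k : ℕ), 4 ≤ k → ∀ (W : Type) [Fintype W] [DecidableEq W]
  (H : Set (Finset W)), k ≤ Fintype.card W →
  (∃ δ : Prop, ∀ X Y : Finset W, ¬ Decomp k H δ X Y) ∧
  ∃ δ : Prop, ∀ u v : W, ¬ Twins k H δ u v

/-- **G4** (`k ≥ 4`). Let `f` be an edge (`s = False`) or a nonedge (`s = True`), `τ` a bijection with
`first τ = f`. With the `δ`, `δ'` of K4, `I = clone τ H δ'` is an internal structure: `base`, `flip` by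
CLB, `free` by CLF, `cross`: the map `ζ` embeds the complement of `X ∪ Y` into `Fin k`, so `X`, `Y` is a
`δ`-decomposition. -/
def S_G4 : Prop := ∀ (k m : ℕ), 4 ≤ k → ∀ (W : Type) [Fintype W] [DecidableEq W]
  (H : Set (Finset W)), Fintype.card W = k + m → (∃ f ∈ H, f.card = k) →
  (∃ f : Finset W, f.card = k ∧ f ∉ H) → Good k m H False ∧ Good k m H True

/-! ## `k = 3`: internal structures for the status `False` -/

/-- **DEC** (the choice of `δ`). Suppose that `X, Y` is a `False`-decomposition and `X', Y'` a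
`True`-decomposition. (i) `X ∪ Y` and `X' ∪ Y'` are disjoint: suppose `x ∈ X ∩ X'` (the other cases
are symmetric). If there are `y ∈ Y`, `y' ∈ Y'` with `y ≠ y'` then `{x, y, y'}` is a nonedge and an edge.
Otherwise `Y = Y' = {y}`, and `{x, y, z}` for any third `z` is a nonedge and an edge. (ii) So `X' ∪ Y'` is
contained in the complement `Z` of `X ∪ Y`, `2 ≤ |Z| ≤ 3`. If `|Z| = 3` it is an edge (it meets `X'` and
`Y'`). If `|Z| = 2`, `X' = {c}`, `Y' = {d}`, `Z = {c, d}`, all triples containing `c, d` are edges, and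
`X ∪ Y` is contained in the complement of `X' ∪ Y'`, `|X ∪ Y| ≤ 3`. `|X ∪ Y| = 2`: `X = {a}`, `Y = {b}`,
first exception. `|X ∪ Y| = 3`: `X = {a}`, `Y = {b, v}` or the other way round: second exception. -/
def S_DEC : Prop := ∀ (W : Type) [Fintype W] [DecidableEq W] (H : Set (Finset W)),
  4 ≤ Fintype.card W →
  (∃ δ : Prop, ∀ X Y : Finset W, ¬ Decomp 3 H δ X Y) ∨
  (∀ X Y : Finset W, Decomp 3 H False X Y → ((X ∪ Y)ᶜ).card = 3 ∧ (X ∪ Y)ᶜ ∈ H) ∨
  (∃ e : Fin 4 ≃ W, ∀ f : Finset (Fin 4), f.card = 3 → (f ∈ H4 ↔ f.map e.toEmbedding ∈ H)) ∨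
  (∃ e : Fin 5 ≃ W, ({e 0, e 3, e 4} : Finset W) ∈ H ∧ ({e 1, e 3, e 4} : Finset W) ∈ H ∧
    ({e 2, e 3, e 4} : Finset W) ∈ H ∧ ({e 0, e 1, e 2} : Finset W) ∉ H ∧
    ({e 0, e 1, e 3} : Finset W) ∉ H ∧ ({e 0, e 1, e 4} : Finset W) ∉ H ∧
    ({e 0, e 2, e 3} : Finset W) ∉ H ∧ ({e 0, e 2, e 4} : Finset W) ∉ H)

/-- **INT** (when the clone lemma does not apply). Suppose that there are no `f`, `δ` as in the first
case. (i) A vertex `u` cannot have both a `False`-twin `u'` and a `True`-twin `v`: if `u' ≠ v` look at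
`{u, u', v}`, otherwise at `{u, u', z}`. (ii) There is an edge `f`; it has a vertex with a `True`-twin (by
assumption with `δ = True`); so there are `True`-twins `c`, `d`. Let `D` be the set of the vertices which
have a `True`-twin, no element of it has a `False`-twin. If `D` had a third element `w`, `{c, d, w}`
would be an edge all of whose vertices are in `D`, without `False`-twins: contradiction. So
`D = {c, d}`. (iii) `{c, d, x}` is an edge for all `x ≠ c, d`; `{c, x, y} ∈ H ↔ {d, x, y} ∈ H`. By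
assumption (`δ = False`, `f = {c, d, x}`) and since `c`, `d` have no `False`-twins, every `x ≠ c, d` has a
`False`-twin `x'`, which is not `c`, `d` (these have no `False`-twin). (iv) An edge avoiding `c` and `d`
would be an edge without vertices in `D`, contradicting the assumption with `δ = True`. -/
def S_INT : Prop := ∀ (W : Type) [Fintype W] [DecidableEq W] (H : Set (Finset W)),
  4 ≤ Fintype.card W → (∃ f ∈ H, f.card = 3) →
  (∃ (f : Finset W) (δ : Prop), f ∈ H ∧ f.card = 3 ∧ ∀ v ∈ f, ∀ u, ¬ Twins 3 H δ v u) ∨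
  ∃ c d : W, Twins 3 H True c d ∧ (∀ f : Finset W, f.card = 3 → c ∉ f → d ∉ f → f ∉ H) ∧
    ∀ x, x ≠ c → x ≠ d → ∃ x', x' ≠ c ∧ x' ≠ d ∧ Twins 3 H False x x'

/-- **QNE**. The second case of INT, with an edge `{c, x, y}`, `x, y ≠ d`. Write `X = W ∖ {c, d}`. The
clone structure with `δ = True` and `first τ = {c, d, x₀}` is `H`-free. Proof: (0) `x`, `y` and their
`False`-twins `x'`, `y'` are four different elements of `X` (`{c, x, x'}` is a nonedge, so `x' ≠ y`;
`{c, x', y}` is an edge (same link), `{c, y', y}` is not, so `x' ≠ y'`; etc.): `|X| ≥ 4`. (i) The only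
`True`-twins are `c`, `d`: for `u, v ∈ X` take a third `z ∈ X`, `{u, v, z}` is a nonedge; for `u ∈ {c, d}`,
`v ∈ X`, the triple `{u, v, v'}` (`v'` a `False`-twin of `v`) is a nonedge. (ii) Let `θ` be as in CLT; it is
not injective, so `θ c = θ d = p`, `p ∉ first τ`, so `p ∈ X ∖ {x₀}`, and `θ` is injective on
`T = W ∖ {d}`; its image `R` misses exactly one vertex `q`. All edges `g ⊆ T` contain `c` (iv of INT). So
all triples in `F = symmDiff H {first τ}` which are contained in `R` contain `p` (the preimage in `T` of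
such a triple is an edge). (iii) If `q ∈ {c, d}` let `q'` be the other one: `{q', x, y}` is in `H` (same
links of `c` and `d`), is not `first τ`, and in `R`; so `p = x` or `p = y`, say `p = x`; with the
`False`-twin `x'` of `x` also `{q', x', y}` is in `F` and in `R`, and does not contain `p`: contradiction.
(iv) If `q ∈ X` take `z ∈ X ∖ {x₀, q, p}` (`|X| ≥ 4`): `{c, d, z}` is in `F` and in `R` and does not
contain `p`: contradiction. -/
def S_QNE : Prop := ∀ (m : ℕ) (W : Type) [Fintype W] [DecidableEq W] (H : Set (Finset W))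
  (τ : Fin 3 ⊕ Fin m ≃ W) (c d x₀ x y : W), Twins 3 H True c d →
  (∀ f : Finset W, f.card = 3 → c ∉ f → d ∉ f → f ∉ H) →
  (∀ x, x ≠ c → x ≠ d → ∃ x', x' ≠ c ∧ x' ≠ d ∧ Twins 3 H False x x') →
  x₀ ≠ c → x₀ ≠ d → first τ = {c, d, x₀} → x ≠ d → y ≠ d → x ≠ c → y ≠ c → x ≠ y →
  ({c, x, y} : Finset W) ∈ H →
  ¬ IndCopy 3 H (clone τ H True) ∧ 6 ≤ Fintype.card W

/-- **HM** (`m + 1 ≥ 3` triples through two vertices `c`, `d`). `I` consists of the triples
`{inl 0, inl 1, inr w}` and `{inl 0, inr (i, a), inr (i, b)}`, `a ≠ b`; `δ = True`. `base`: `old ∉ I`.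
`flip`: a bijection with `c ↦ inl 0`, `d ↦ inl 1`, the other vertices to `inl 2` and the `inr (i, w i)`; a
triple in the image is in `symmDiff I {old}` if and only if it contains `inl 0` and `inl 1`. `free`: let
`c', d', x₁, ..., x_{m+1}` be the images. All triples in `I` contain `inl 0`, and the edges
`{c', d', x_j}` (at least two) have only `c'`, `d'` in common, so say `c' = inl 0`. If `d' = inl 1`, the
`x_j` are `inr`'s (not `inl 2`), `m + 1` of them in `m` classes, so two in the same class, and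
`{c', x_i, x_j} ∈ I`, contradiction. If `d' = inr (i, a)`, the `x_j` are `inl 1` or `inr (i, ·)`; as
there are at least three, two are `inr (i, ·)` and `{c', x_i, x_j} ∈ I`, contradiction. `d' = inl 2` is
impossible (no triple in `I` contains `inl 2`). `cross` (`δ = True`): for `x ∈ X`, `y ∈ Y` all triples
`{x, y, z}` contain `c` and `d`, so `{x, y} = {c, d}` (at least two choices of `z`); so `X ∪ Y = {c, d}`,
and `ζ` maps the other `m + 1 ≥ 3` vertices injectively into the `inl`'s, so onto them; for the `y ∈ Y`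
(`ζ y = inr w`) and the `z, z'` with `ζ z = inl 0`, `ζ z' = inl 1` the triple `{y, z, z'}` is not in `H`,
but its image is in `I`: contradiction. -/
def S_HM : Prop := ∀ (m : ℕ), 2 ≤ m → ∀ (W : Type) [Fintype W] [DecidableEq W]
  (H : Set (Finset W)) (c d : W), Fintype.card W = m + 3 → c ≠ d →
  (∀ f : Finset W, f.card = 3 → (f ∈ H ↔ c ∈ f ∧ d ∈ f)) → Good 3 m H False

/-- **T2A**. `H` with five vertices `a, b, v, c, d` (`= e 0, ..., e 4`) and the edges `acd`, `bcd`, `vcd`,
`bcv`, `bdv`. Let `first τ = {b, v, c} = {e 1, e 2, e 3}`, `I = clone τ H False`, `δ = True`. `base`,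
`flip`: CLB. `free`: CLF; `H` has no `False`-twins: two vertices in no common edge are `a, b` or `a, v`,
and `bcv`, `bdv` are edges, `acv`, `avc`, `abc` not. `cross`: Let `X, Y` be disjoint, nonempty, all triples
meeting both in `H`. As `{e 0, e 1, e 2}`, `{e 0, e 1, e 3}`, `{e 0, e 1, e 4}`, `{e 0, e 2, e 3}`,
`{e 0, e 2, e 4}` are nonedges, none of them meets both; this leaves only `X = {c}`, `Y = {d}` or the
other way round (a finite check; e.g. if `a ∈ X` then none of `b, v, c, d` is in `Y`, as each is together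
with `a` in a nonedge, so `a ∉ X ∪ Y`; if `b ∈ X`: `v, c, d ∉ Y` by the nonedges `abv`, `abc`, `abd`; the
same for `v`). Then `ζ` maps `a, b, v` onto the `inl`'s, and `ζ y = inr (i, n)`
for `Y = {y}`, `y ∈ {c, d}`; exactly one of the three triples `{y} ∪` two of `{a, b, v}` is an edge
(`{y, b, v}`). So exactly one of the triples `{inr (i, n), inl j, inl j'}` is in `I`. But for the class `i`
of `a` none of them is (`abc`, `abv`, `acv`), and for the class of `d` all three are (`bcd`, `vcd`,
`bdv`). -/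
def S_T2A : Prop := ∀ (W : Type) [Fintype W] [DecidableEq W] (H : Set (Finset W))
  (e : Fin 5 ≃ W), ({e 0, e 3, e 4} : Finset W) ∈ H → ({e 1, e 3, e 4} : Finset W) ∈ H →
    ({e 2, e 3, e 4} : Finset W) ∈ H → ({e 0, e 1, e 2} : Finset W) ∉ H →
    ({e 0, e 1, e 3} : Finset W) ∉ H → ({e 0, e 1, e 4} : Finset W) ∉ H →
    ({e 0, e 2, e 3} : Finset W) ∉ H → ({e 0, e 2, e 4} : Finset W) ∉ H →
    ({e 1, e 2, e 3} : Finset W) ∈ H → ({e 1, e 2, e 4} : Finset W) ∈ H → Good 3 2 H False

/-- **P0** (assembly for `k = 3`, status `False`). Take INT. First case `f`, `δ'`: choose `τ` with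
`first τ = f`, `I = clone τ H δ'` (`base`, `flip`: CLB; `free`: CLF). Second case: if there is an edge
`{c, x, y}` with `x, y ≠ d`: `I = clone τ H True` with `first τ = {c, d, x₀}` (QNE), here `|W| ≥ 6`. If
not, `f ∈ H ↔ c ∈ f ∧ d ∈ f` for all triples (`c`, `d` have the same links, and all triples with both are
edges): `m ≥ 2` by HM; `m = 1` is the first exception (`e 0, e 1` the two vertices different from
`c = e 2`, `d = e 3`). For the clone structures `cross` is obtained from DEC: if there is no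
`δ`-decomposition take this `δ` (`ζ` maps the complement of `X ∪ Y` injectively to `Fin 3`, so
`Decomp 3 H δ X Y`); if all `False`-decompositions have `Z = (X ∪ Y)ᶜ` with three elements and in `H` take
`δ = False`: `ζ` maps `Z` onto `old 3 m ∉ I` (`Z` is disjoint from `X`, a triple in `H`), contradiction. The
two last cases of DEC: the first is the exception `H4`; in the second (`|W| = 5`, `m = 2`) look at
`{e 1, e 2, e 3}` and `{e 1, e 2, e 4}`: both in `H`: T2A; none in `H`: HM with `c = e 3`, `d = e 4`; exactly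
one: the exception `H5` (if `{e 1, e 2, e 4} ∈ H` exchange `e 3` and `e 4`). -/
def S_P0 : Prop := ∀ (m : ℕ), 1 ≤ m → ∀ (W : Type) [Fintype W] [DecidableEq W]
  (H : Set (Finset W)), Fintype.card W = 3 + m → (∃ f ∈ H, f.card = 3) →
  Good 3 m H False ∨
  (∃ e : Fin 4 ≃ W, ∀ f : Finset (Fin 4), f.card = 3 → (f ∈ H4 ↔ f.map e.toEmbedding ∈ H)) ∨
  (∃ e : Fin 5 ≃ W, ∀ f : Finset (Fin 5), f.card = 3 → (f ∈ H5 ↔ f.map e.toEmbedding ∈ H))

/-! ## The exceptions -/

/-- **E4**. Vertices: the finite subsets of `ℚ` (or the functions `ℚ → {0,1}` with finite support); for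
`x ≠ y` let `Δ(x, y)` be the least element of their symmetric difference. `Δ(x, z) ≥ min(Δ(x, y), Δ(y, z))`,
and of the three numbers `Δ` of a triple the smallest occurs exactly twice (three vertices cannot be
pairwise different at the same place if they agree before it). Let `χ : ℚ → Prop` be such that every open
interval contains a `t` with `χ t` and one with `¬ χ t` (e.g. `χ` = dyadic rational). A triple is an edge
if `χ` holds for the smallest of the three `Δ`. (i) Let `l` be the least `Δ` of four different vertices;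
they agree before `l`. If `l` divides them `2 : 2`, the least `Δ` of all four triples is `l`, so there are
`0` or `4` edges; if `1 : 3`, three triples have the least `Δ` `l`, so there are `0`, `1`, `3` or `4` edges.
Never two; so there is no copy of `H4`. (ii) Let `P` be a locally finite perturbation, `{x, y, z} ∈ P`,
`u = Δ(x, y) > l = Δ(x, z) = Δ(y, z)`. For `t` with `l < t < u` and `χ t ↔ ¬ χ l` let `w` be the vertex
which agrees with `x` before `t`, and is different from `x` at `t`, and empty (zero) after `t`; there are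
infinitely many such `t`, and different `t` give different `w` (`Δ(w, x) = t`). Choose one which is in none
of the finitely many members of `P` that contain `x`, `y` or `z`; so `P` contains none of `wxy`, `wxz`, `wyz`.
`wxy` has the least `Δ` `t`; `wxz`, `wyz` have the least `Δ` `l`. If `χ l`: `xyz`, `wxz`, `wyz` are edges,
`wxy` not, and after the perturbation exactly `wxz`, `wyz` are edges. If `¬ χ l`: only `wxy` is an edge, and
after the perturbation exactly `wxy`, `xyz` are. Both are copies of `H4` (two triples with two common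
vertices `2`, `3`). Transport to `ℕ`. -/
def S_E4 : Prop := ∃ G : Set (Finset ℕ), StrongSat 3 H4 G

/-- **MX** (new maximum `q + 1`). Let `J` be a set of elements less than `z` (joining), closed in the
sense of the hypothesis. The new triples (with `α < β ≤ q`): `{α, β, q+1} ∈ E'` if and only if `J α` and
(`β = z` or `{α, β, z} ∈ E`). That is, `q + 1` joins the class of `z` under `~_α` for `α ∈ J`, and is a
single class for the other `α`. Let `E'` be: the triples in `E` without `q + 1`, and these. `eq` is clear. `r`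
for `a < c < b, d` with `q + 1 ∈ {b, d}`, `b ≠ d`. (1) `b = q + 1`: `J c`, `d = z` or `{c, d, z} ∈ E`, and
`{a, c, d} ∈ E`. So `{a, c, z} ∈ E` (if `d ≠ z` by `r` for `a, c, z, d`), `J a` by the hypothesis, and
`{a, c, q+1} ∈ E'`. (2) `d = q + 1`: `J a`, `J c`, `{a, c, z} ∈ E` (`c < z` as `J c`), and `b = z` or
`{c, b, z} ∈ E`: if `b = z` we have `{a, c, b} ∈ E`; otherwise by `r` for `a, c, b, z`. -/
def S_MX : Prop := ∀ (p q z : ℤ) (E : Set (Finset ℤ)) (J : ℤ → Prop), OK p q E → p ≤ z → z ≤ q →
  (∀ α, J α → p ≤ α ∧ α < z) →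
  (∀ a c, p ≤ a → a < c → J c → ({a, c, z} : Finset ℤ) ∈ E → J a) →
  ∃ E' : Set (Finset ℤ), OK p (q + 1) E' ∧
    (∀ f : Finset ℤ, f.card = 3 → (∀ x ∈ f, p ≤ x ∧ x ≤ q) → (f ∈ E' ↔ f ∈ E)) ∧
    ∀ α β : ℤ, p ≤ α → α < β → β ≤ q → (({α, β, q + 1} : Finset ℤ) ∈ E' ↔
      (J α ∧ (β = z ∨ ({α, β, z} : Finset ℤ) ∈ E)))

/-- **MN** (new minimum `p - 1`, all classes single elements except possibly `{z, w}`). `E'`: the triples
in `E` without `p - 1`, and, if `B`, `{p-1, z, w}`. `eq` for `x = p - 1`: impossible, as two different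
triples through `p - 1` are not both in `E'`. `r` for `a = p - 1`: `{c, d} = {z, w}`, `c < d`, so `c = z`,
`d = w`, and `{z, b, w} ∈ E` contradicts the hypothesis. -/
def S_MN : Prop := ∀ (p q z w : ℤ) (E : Set (Finset ℤ)) (B : Prop), OK p q E →
  (B → p ≤ z ∧ z < w ∧ w ≤ q ∧ ∀ b, z < b → b ≤ q → b ≠ w → ({z, b, w} : Finset ℤ) ∉ E) →
  ∃ E' : Set (Finset ℤ), OK (p - 1) q E' ∧
    (∀ f : Finset ℤ, f.card = 3 → (∀ x ∈ f, p ≤ x ∧ x ≤ q) → (f ∈ E' ↔ f ∈ E)) ∧
    ∀ α β : ℤ, p ≤ α → α < β → β ≤ q → (({p - 1, α, β} : Finset ℤ) ∈ E' ↔ (B ∧ α = z ∧ β = w))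

/-- **STP** (the extension step). Let `x < y < z` in `[p, q]`. Case 1: `{x, y, z} ∉ E`. Let
`J α ↔ p ≤ α ∧ (α = y ∨ (α < y ∧ {α, y, z} ∈ E))`. The closure hypothesis of MX: `J c`, `a < c`,
`{a, c, z} ∈ E`; if `c = y`, `J a`; otherwise `{c, y, z} ∈ E` and `r` for `a, c, y, z` (`b = y`, `d = z`)
gives `{a, c, y} ∈ E`, and `eq` (`a`; `y, c, z`) gives `{a, y, z} ∈ E`, so `J a`. Apply MX twice with this
`J` (new elements `q + 1`, `q + 2`; for the second time the triples inside `[p, q]` are the same), and MN with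
`B = False` for the new minimum `p - 1`. The copy of `H5`: `a = x`, `c = y`, `d = z`, `b = q + 1`,
`v = q + 2`: `bcd = {y, z, q+1}`, `vcd = {y, z, q+2}`, `bcv = {y, q+1, q+2}` are in `E'` (`J y`; for the last
one `{y, q+1, z} ∈ E'`), `abc`, `abd`, `abv`, `acv`, `adv` are not (`¬ J x` since `{x, y, z} ∉ E`), `bdv = {z, q+1, q+2}`
is not (`¬ J z`), and `acd = {x, y, z}` is in `symmDiff E' {{x, y, z}}`. Case 2: `{x, y, z} ∈ E`. MX with
`J α ↔ p ≤ α ∧ α < z` (new maximum `w = q + 1`), then MN with `z`, `w = q + 1`, `B = True`; its hypothesis: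
`{z, b, q+1}`, `z < b ≤ q`, is not in the new `E` as `¬ J z`. The copy of `H5`: `a = p - 1`, `b = x`, `v = y`,
`c = q + 1`, `d = z`: `acd = {p-1, z, q+1}`, `bcd = {x, z, q+1}`, `vcd = {y, z, q+1}`, `bcv = {x, y, q+1}`
(as `{x, y, z} ∈ E`) are in `E'`; `abc`, `abd`, `abv`, `acv`, `adv` are not; `bdv = {x, y, z}` is in `E'`, so
not in `symmDiff E' {{x, y, z}}`. In both cases `p' = p - 1`; enlarge by one more maximum if wanted. -/
def S_STP : Prop := ∀ (p q : ℤ) (E : Set (Finset ℤ)), OK p q E → ∀ x y z : ℤ, p ≤ x → x < y →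
  y < z → z ≤ q →
  ∃ (p' q' : ℤ) (E' : Set (Finset ℤ)), p' ≤ p - 1 ∧ q + 1 ≤ q' ∧ OK p' q' E' ∧
    (∀ f : Finset ℤ, f.card = 3 → (∀ x ∈ f, p ≤ x ∧ x ≤ q) → (f ∈ E' ↔ f ∈ E)) ∧
    ∃ φ : Fin 5 ↪ ℤ, (∀ i, φ i = x ∨ φ i = y ∨ φ i = z ∨ ((φ i < p ∨ q < φ i) ∧ p' ≤ φ i ∧ φ i ≤ q')) ∧
      ∀ f : Finset (Fin 5), f.card = 3 → (f ∈ H5 ↔ f.map φ ∈ symmDiff E' {{x, y, z}})

/-- **FR5** (no copy of `H5`). Let `φ` be one. For the smallest vertex `φ i` the pairs `{j, l}` with
`{i, j, l} ∈ H5` form an equivalence relation (disjoint cliques) on the other four indices by `eq`. For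
`i = c` (3) these are `ad, bd, vd, bv`; for `d`: `ac, bc, vc`; for `b`: `cd, cv`; for `v`: `cd, bc`: none is a
disjoint union of cliques. So `i = a` (0). Among `b, v, c, d` the smallest is `c` for the same reason
(`b`: `cd, cv`; `v`: `cd, bc`; `d`: `bc, vc`). So `a < c < b, d`, `{a, c, d}`, `{c, b, d}` are in `E`, and by
`r` also `{a, c, b}`, but `{0, 3, 1} ∉ H5`. -/
def S_FR5 : Prop := ∀ (p q : ℤ) (E : Set (Finset ℤ)), OK p q E →
  ¬ ∃ φ : Fin 5 ↪ ℤ, (∀ i, p ≤ φ i ∧ φ i ≤ q) ∧
    ∀ f : Finset (Fin 5), f.card = 3 → (f ∈ H5 ↔ f.map φ ∈ E)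

/-- **E5**. Start with `p = q = 0`, `E = ∅` (or any). Let `g : ℕ → ℤ × ℤ × ℤ` take every value infinitely
often. Build `p_n`, `q_n`, `E_n` by recursion: if `g n = (x, y, z)` with `p_n ≤ x < y < z ≤ q_n` apply STP to
it; otherwise enlarge in any way with `p_{n+1} ≤ p_n - 1`, `q_{n+1} ≥ q_n + 1` (for instance MN with
`B = False` and MX with `J = False`). The `E_n` agree on the triples inside `[p_n, q_n]`, and these
intervals exhaust `ℤ`. Let `f ∈ G` if `f ∈ E_n` for some (equivalently every) `n` with `f ⊆ [p_n, q_n]`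
(for triples `f`). No copy of `H5` in `G` (FR5: its five vertices are in some `[p_n, q_n]`). Let `P` be
locally finite, `T = {x, y, z} ∈ P`, `x < y < z`. For infinitely many `n` STP was applied to `T` at step
`n`; the new vertices of the copy are in `[p_{n+1}, q_{n+1}] ∖ [p_n, q_n]`, so they are different for
different `n`. By STP every vertex of the copy is `x`, `y`, `z` or new.
If the copy did not contain all of `x, y, z`, then `{x, y, z}` would not be a triple of the copy, and `φ`
would be a copy of `H5` in `E_{n+1}`, contradicting FR5. So exactly two of its five vertices are new, and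
every triple of the copy contains `x`, `y` or `z`. Only finitely many triples in `P` contain `x`, `y` or
`z`, so for some such `n` none of these contains one of the two new vertices. Then the only member of
`P` inside the copy is `T`, so `symmDiff G P` and `symmDiff E_{n+1} {T}` agree on the triples inside the
copy, and it is a copy of `H5` in `symmDiff G P`. Transport to `ℕ` (SYM (4)). -/
def S_E5 : Prop := ∃ G : Set (Finset ℕ), StrongSat 3 H5 G

/-! ## The theorem -/

/-- **FIN**. `k ≥ 4`: G4 and GT (`|W| = k + m`, `m ≥ 1` as there are an edge and a nonedge). `k = 3`: P0 for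
`H` and for `Hᶜ` (and SYM (1): `Good 3 m Hᶜ False → Good 3 m Hᶜᶜ (¬ False)`); if both are `Good` use GT; if
`H` (or `Hᶜ`) is isomorphic to `H4` or `H5` use E4, E5 with SYM (3) (and SYM (2)). Finally replace `G` by
`{e ∈ G | e.card = k}`. -/
def S_FIN : Prop := ∀ (k : ℕ), 3 ≤ k → ∀ (W : Type) [Fintype W] (H : Set (Finset W)),
  (∀ e ∈ H, e.card = k) → H.Nonempty → (∃ e : Finset W, e.card = k ∧ e ∉ H) →
  ∃ G : Set (Finset ℕ), (∀ e ∈ G, e.card = k) ∧ StrongSat k H G

end Q109.ISat
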